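import Pool.Agent.helper70.LE.Defs
import Pool.Agent.helper1.FI4.AllHTx

/-!
# Project LE (MP_baa4d7_al), block HEIGHT-L: the heights are bounded

`HTL_core`: if `iI * |D| < p ^ (2 k) * |RG|` then all heights in the block are smaller than `k`. `HTL_rg`: the number of the elements of `D` which are not regular.
-/

set_option autoImplicit false

namespace Pool.Agent.LE

open Pool.Agent.helper58.DC Pool.Agent.DI Pool.Agent.GR Pool.Agent.OB Pool.Agent.DR Pool.Agent.FI Pool.Agent.FI3 Pool.Agent.FI4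

/-- The commutator with `t`, a homomorphism on the abelian group `D`. -/
def HTL_hom {G : Type} [Group G] (D : Subgroup G) (com : ∀ c ∈ D, ∀ d ∈ D, c * d = d * c) (t : G)
    (ht : t ∈ nz D) : D →* G where
  toFun w := (w : G)⁻¹ * t * w * t⁻¹
  map_one' := by simp
  map_mul' := by
    intro w₁ w₂
    have hc : ∀ w : D, t * (w : G) * t⁻¹ ∈ D := fun w => (Subgroup.mem_normalizer_iff.1 ht w).1 w.2
    have h1 : (w₂ : G)⁻¹ * ((w₁ : G)⁻¹ * (t * w₁ * t⁻¹)) = ((w₁ : G)⁻¹ * (t * w₁ * t⁻¹)) * (w₂ : G)⁻¹ :=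
      com _ (D.inv_mem w₂.2) _ (D.mul_mem (D.inv_mem w₁.2) (hc w₁))
    calc ((w₁ * w₂ : D) : G)⁻¹ * t * ((w₁ * w₂ : D) : G) * t⁻¹
        = ((w₂ : G)⁻¹ * ((w₁ : G)⁻¹ * (t * w₁ * t⁻¹))) * (t * w₂ * t⁻¹) := by
          rw [Subgroup.coe_mul]; group
      _ = ((w₁ : G)⁻¹ * (t * w₁ * t⁻¹)) * (w₂ : G)⁻¹ * (t * w₂ * t⁻¹) := by rw [h1]
      _ = ((w₁ : G)⁻¹ * t * w₁ * t⁻¹) * ((w₂ : G)⁻¹ * t * w₂ * t⁻¹) := by group

/-- The index of the fixed points of `t`. -/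
theorem HTL_idx {p : ℕ} (hp : p.Prime) {G : Type} [Group G] [Finite G] (D : Subgroup G)
    (com : ∀ c ∈ D, ∀ d ∈ D, c * d = d * c) (hD : IsPGroup p D) (t : G) (ht : t ∈ nz D) (m : ℕ) (w : G) (hw : w ∈ D)
    (hv : (w⁻¹ * t * w * t⁻¹) ^ p ^ m ≠ 1) :
    p ^ (m + 1) * Nat.card (D ⊓ Subgroup.centralizer {t} : Subgroup G) ≤ Nat.card D := by
  have hpf : Fact p.Prime := ⟨hp⟩
  set f := HTL_hom D com t ht with hf
  have hker : Nat.card f.ker = Nat.card (D ⊓ Subgroup.centralizer {t} : Subgroup G) := by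
    have h1 : f.ker.map D.subtype = D ⊓ Subgroup.centralizer {t} := by
      ext u
      constructor
      · rintro ⟨u', hu', rfl⟩
        refine ⟨u'.2, ?_⟩
        have h2 : (u' : G)⁻¹ * t * u' * t⁻¹ = 1 := hu'
        show (u' : G) ∈ Subgroup.centralizer {t}
        rw [Subgroup.mem_centralizer_iff]
        intro s hs
        rw [Set.mem_singleton_iff] at hs
        rw [hs]
        calc t * (u' : G) = (u' : G) * ((u' : G)⁻¹ * t * u' * t⁻¹) * t := by group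
          _ = (u' : G) * t := by rw [h2, mul_one]
      · rintro ⟨hu, hc⟩
        refine ⟨⟨u, hu⟩, ?_, rfl⟩
        change u⁻¹ * t * u * t⁻¹ = 1
        have h2 : t * u = u * t := (Subgroup.mem_centralizer_iff.1 hc) t (Set.mem_singleton t)
        calc u⁻¹ * t * u * t⁻¹ = u⁻¹ * (t * u) * t⁻¹ := by group
          _ = 1 := by rw [h2]; group
    rw [← h1]
    exact Nat.card_congr (f.ker.equivMapOfInjective D.subtype D.subtype_injective).toEquiv
  have hmul : Nat.card f.ker * Nat.card f.range = Nat.card D := by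
    rw [← Subgroup.index_ker f]
    exact Subgroup.card_mul_index f.ker
  have hvr : (w⁻¹ * t * w * t⁻¹) ∈ f.range := ⟨⟨w, hw⟩, rfl⟩
  have hvD : (w⁻¹ * t * w * t⁻¹) ∈ D := by
    have h1 : t * w * t⁻¹ ∈ D := (Subgroup.mem_normalizer_iff.1 ht w).1 hw
    have h2 := D.mul_mem (D.inv_mem hw) h1
    have h3 : w⁻¹ * t * w * t⁻¹ = w⁻¹ * (t * w * t⁻¹) := by group
    rw [h3]; exact h2
  have hord : p ^ (m + 1) ≤ orderOf (w⁻¹ * t * w * t⁻¹) := by
    obtain ⟨k, hk⟩ := (IsPGroup.iff_orderOf.1 hD) ⟨_, hvD⟩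
    rw [Subgroup.orderOf_mk] at hk
    rw [hk]
    refine Nat.pow_le_pow_right hp.pos ?_
    by_contra hlt
    push Not at hlt
    have h1 : k ≤ m := by omega
    apply hv
    rw [← orderOf_dvd_iff_pow_eq_one, hk]
    exact pow_dvd_pow p h1
  have hdvd : orderOf (w⁻¹ * t * w * t⁻¹) ∣ Nat.card f.range := by
    have h1 := orderOf_dvd_natCard (⟨_, hvr⟩ : f.range)
    rwa [Subgroup.orderOf_mk] at h1
  have hle : p ^ (m + 1) ≤ Nat.card f.range := hord.trans (Nat.le_of_dvd Nat.card_pos hdvd)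
  rw [← hker, ← hmul, mul_comm]
  exact Nat.mul_le_mul_left _ hle

/-- The number of the elements of `D` which are not regular. -/
theorem HTL_rg {p : ℕ} (hp : p.Prime) {G : Type} [Group G] [Finite G] (M : Ideal (integralClosure ℤ ℂ)) (D : Subgroup G) (θ : G → ℂ)
    (com : ∀ c ∈ D, ∀ d ∈ D, c * d = d * c) (hD : IsPGroup p D) (m : ℕ)
    (hw : ∀ t ∈ TT M D θ, t ∉ cz D → ∃ w ∈ D, (w⁻¹ * t * w * t⁻¹) ^ p ^ m ≠ 1) :
    p ^ (m + 1) * (Nat.card D - (RG M D θ).ncard) ≤ (iI M D θ - 1) * Nat.card D := by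
  classical
  have : Fact p.Prime := ⟨hp⟩
  set T := TT M D θ with hT
  let Q := T ⧸ (cz D).subgroupOf T
  have : Fintype Q := Fintype.ofFinite Q
  have hQ : Fintype.card Q = iI M D θ := by
    have h1 : iI M D θ = (cz D).relIndex T := rfl
    rw [h1, Subgroup.relIndex, Subgroup.index, Nat.card_eq_fintype_card]
  let F : Q → Subgroup G := fun q => D ⊓ Subgroup.centralizer {((Quotient.out q : T) : G)}
  have hF : ∀ q : Q, q ≠ ((1 : T) : Q) → p ^ (m + 1) * Nat.card (F q) ≤ Nat.card D := by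
    intro q hq
    have h3 : ((Quotient.out q : T) : G) ∉ cz D := by
      intro h3
      apply hq
      have h6 : ((Quotient.out q : T) : Q) = q := Quotient.out_eq q
      rw [← h6, QuotientGroup.eq]
      show ((Quotient.out q : T)⁻¹ * 1) ∈ (cz D).subgroupOf T
      rw [mul_one]
      exact Subgroup.inv_mem _ (Subgroup.mem_subgroupOf.mpr h3)
    obtain ⟨w, hwD, hwv⟩ := hw _ (Quotient.out q : T).2 h3
    exact HTL_idx hp D com hD _ (Quotient.out q : T).2.1 m w hwD hwv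
  have hcov : (D : Set G) \ RG M D θ ⊆
      ⋃ q ∈ (Finset.univ.erase ((1 : T) : Q)), (F q : Set G) := by
    rintro u ⟨hu, hnu⟩
    have h1 : ∃ t ∈ T, t * u = u * t ∧ t ∉ cz D := by
      by_contra hcon
      push Not at hcon
      exact hnu ⟨hu, hcon⟩
    obtain ⟨t, ht, htu, htc⟩ := h1
    have h2 : (((⟨t, ht⟩ : T) : Q)) ≠ ((1 : T) : Q) := by
      intro h0
      rw [QuotientGroup.eq] at h0
      have h3 : (⟨t, ht⟩ : T)⁻¹ ∈ (cz D).subgroupOf T := by simpa using h0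
      have h4 := Subgroup.mem_subgroupOf.mp (Subgroup.inv_mem _ h3)
      exact htc (by simpa using h4)
    rw [Set.mem_iUnion₂]
    refine ⟨((⟨t, ht⟩ : T) : Q), Finset.mem_erase.mpr ⟨h2, Finset.mem_univ _⟩, hu, ?_⟩
    show u ∈ Subgroup.centralizer {((Quotient.out (((⟨t, ht⟩ : T) : Q)) : T) : G)}
    rw [Subgroup.mem_centralizer_iff]
    intro s hs
    rw [Set.mem_singleton_iff] at hs
    rw [hs]
    set o : T := Quotient.out (((⟨t, ht⟩ : T) : Q)) with ho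
    have h5 : ((o : T) : Q) = ((⟨t, ht⟩ : T) : Q) := Quotient.out_eq _
    rw [QuotientGroup.eq] at h5
    have h6 : (o : G)⁻¹ * t ∈ cz D := h5
    have h7 : u * ((o : G)⁻¹ * t) = ((o : G)⁻¹ * t) * u := by
      have : (o : G)⁻¹ * t ∈ Subgroup.centralizer (D : Set G) := h6
      exact (Subgroup.mem_centralizer_iff.mp this) u hu
    have h8 : (o : G) * u * ((o : G)⁻¹ * t) = u * (o : G) * ((o : G)⁻¹ * t) := by
      rw [mul_assoc, h7]
      simp only [mul_assoc, mul_inv_cancel_left]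
      exact htu
    exact mul_right_cancel h8
  have hRD : RG M D θ ⊆ (D : Set G) := fun u hu => hu.1
  have hn : Nat.card D - (RG M D θ).ncard = ((D : Set G) \ RG M D θ).ncard := by
    rw [Set.ncard_sdiff hRD (Set.toFinite _)]
    rfl
  rw [hn]
  calc p ^ (m + 1) * ((D : Set G) \ RG M D θ).ncard ≤
      p ^ (m + 1) * ∑ q ∈ Finset.univ.erase ((1 : T) : Q), (F q : Set G).ncard := by
        apply Nat.mul_le_mul_left
        exact (Set.ncard_le_ncard hcov (Set.toFinite _)).trans (Finset.set_ncard_biUnion_le _ _)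
    _ = ∑ q ∈ Finset.univ.erase ((1 : T) : Q), p ^ (m + 1) * (F q : Set G).ncard := Finset.mul_sum _ _ _
    _ ≤ ∑ q ∈ Finset.univ.erase ((1 : T) : Q), Nat.card D := by
        apply Finset.sum_le_sum
        intro q hq
        exact hF q (Finset.ne_of_mem_erase hq)
    _ = (iI M D θ - 1) * Nat.card D := by
        rw [Finset.sum_const, Finset.card_erase_of_mem (Finset.mem_univ _), Finset.card_univ, hQ,
          smul_eq_mul]

/-- `dd / p ^ k` is integral if the height is at least `k`. -/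
theorem HTL_iap (hUDD : UDD_stmt) (hNZ3 : NZ3_stmt) (p : ℕ) (M : Ideal (integralClosure ℤ ℂ)) (hS : Setup p M) (G : Type) [Group G] [Finite G]
    (D : Subgroup G) (x : G) (θ χ : G → ℂ) (hR : Rt p M D x θ χ) (u : G) (hu : u ∈ D)
    (hg : Good p M D (Cz (cz (⊥ : Subgroup G)) u) θ) (ψ : G → ℂ) (hψ : ψ ∈ Bl M (⊤ : Subgroup G) θ) (d k : ℕ) (hd : ψ 1 = d) (hd0 : d ≠ 0)
    (hv : padicValNat p (Nat.card G) + k ≤ padicValNat p (Nat.card D) + padicValNat p d) :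
    dd M (Cz (⊤ : Subgroup G) u) θ ψ u ≠ 0 ∧ IntAt M (dd M (Cz (⊤ : Subgroup G) u) θ ψ u / (p : ℂ) ^ k) := by
  have hpf : Fact p.Prime := ⟨hS.pr⟩
  have hψ' : ψ ∈ Bl M (cz (⊥ : Subgroup G)) θ := by
    rw [IAP_cz_bot]
    exact hψ
  have h1 := hNZ3 p M hS G D x θ χ hR ⊥ bot_le u hu hg ψ hψ'
  have h2 := hUDD p M hS G D x θ χ hR ⊥ bot_le u hu hg ψ hψ'
  rw [IAP_cz_bot] at h1 h2
  refine ⟨h1, ?_⟩
  rw [Subgroup.card_top] at h2
  have hG0 : Nat.card G ≠ 0 := Nat.card_pos.ne'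
  have hD0 : Nat.card D ≠ 0 := Nat.card_pos.ne'
  have hp0 : p ^ k ≠ 0 := pow_ne_zero _ hS.pr.ne_zero
  have h3 : IntAt M (((Nat.card D * d : ℕ) : ℂ) / ((Nat.card G * p ^ k : ℕ) : ℂ)) := by
    refine IAP_int hS (mul_ne_zero hD0 hd0) (mul_ne_zero hG0 hp0) ?_
    rw [padicValNat.mul hD0 hd0, padicValNat.mul hG0 hp0, padicValNat.prime_pow]
    exact hv
  have h4 := IntAt.mul hS h2 h3
  have e : (Nat.card G : ℂ) / Nat.card D * (dd M (Cz (⊤ : Subgroup G) u) θ ψ u / ψ 1) *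
      (((Nat.card D * d : ℕ) : ℂ) / ((Nat.card G * p ^ k : ℕ) : ℂ)) = dd M (Cz (⊤ : Subgroup G) u) θ ψ u / (p : ℂ) ^ k := by
    have a1 : (Nat.card G : ℂ) ≠ 0 := by exact_mod_cast hG0
    have a2 : (Nat.card D : ℂ) ≠ 0 := by exact_mod_cast hD0
    have a3 : (p : ℂ) ^ k ≠ 0 := pow_ne_zero _ hS.p_ne
    have a4 : (d : ℂ) ≠ 0 := by exact_mod_cast hd0
    rw [hd]
    push_cast
    field_simp
  rw [e] at h4
  exact h4

/-- Norms: all conjugates are divisible by `p ^ k`. -/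
theorem HTL_nag (hNRC : NRC_stmt) (p : ℕ) (M : Ideal (integralClosure ℤ ℂ)) (hS : Setup p M) (n k : ℕ) (hn : 0 < n) (P : Polynomial ℤ)
    (hμ : ∀ μ ∈ primitiveRoots n ℂ, Polynomial.aeval μ P ≠ 0 ∧ IntAt M (Polynomial.aeval μ P / (p : ℂ) ^ k)) :
    (p : ℝ) ^ (2 * k) * Nat.totient n ≤ ∑ μ ∈ primitiveRoots n ℂ, ‖Polynomial.aeval μ P‖ ^ 2 := by
  classical
  have hcard : (primitiveRoots n ℂ).card = Nat.totient n := Complex.card_primitiveRoots n
  have hφ : 0 < Nat.totient n := Nat.totient_pos.2 hn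
  obtain ⟨N, hN⟩ := hNRC n hn P
  have hp := hS.pr
  have hN0 : N ≠ 0 := by
    rintro rfl
    rw [Int.cast_zero, Finset.prod_eq_zero_iff] at hN
    obtain ⟨μ, h1, h2⟩ := hN
    exact (hμ μ h1).1 h2
  have hint : IntAt M ((N : ℂ) / (p : ℂ) ^ (k * Nat.totient n)) := by
    have h1 := IntAt.prod hS (primitiveRoots n ℂ) fun μ hm => (hμ μ hm).2
    rw [Finset.prod_div_distrib, hN, Finset.prod_const, hcard, ← pow_mul] at h1
    exact h1
  have hdvd : p ^ (k * Nat.totient n) ∣ N.natAbs :=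
    NAG_dvd hS (Int.natAbs_ne_zero.2 hN0) (NAG_neg rfl hint)
  have hle : p ^ (k * Nat.totient n) ≤ N.natAbs := Nat.le_of_dvd (Int.natAbs_pos.2 hN0) hdvd
  have hprod : ∏ μ ∈ primitiveRoots n ℂ, ‖Polynomial.aeval μ P‖ = (N.natAbs : ℝ) := by
    rw [← norm_prod, hN, Complex.norm_intCast, Nat.cast_natAbs, Int.cast_abs]
  have hprod2 : ((p : ℝ) ^ (2 * k)) ^ Nat.totient n ≤ ∏ μ ∈ primitiveRoots n ℂ, ‖Polynomial.aeval μ P‖ ^ 2 := by
    rw [Finset.prod_pow, hprod, ← pow_mul, mul_assoc, mul_comm 2, pow_mul]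
    exact pow_le_pow_left₀ (by positivity) (by exact_mod_cast hle) 2
  have hφR : (0 : ℝ) < (Nat.totient n : ℝ) := by exact_mod_cast hφ
  have hag := Real.geom_mean_le_arith_mean_weighted (primitiveRoots n ℂ) (fun _ => (Nat.totient n : ℝ)⁻¹)
    (fun μ => ‖Polynomial.aeval μ P‖ ^ 2) (fun _ _ => by positivity)
    (by rw [Finset.sum_const, hcard, nsmul_eq_mul, mul_inv_cancel₀ hφR.ne']) (fun _ _ => by positivity)
  rw [← Finset.mul_sum, Real.finsetProd_rpow _ _ (fun _ _ => by positivity)] at hag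
  have h5 : (p : ℝ) ^ (2 * k) ≤ (∏ μ ∈ primitiveRoots n ℂ, ‖Polynomial.aeval μ P‖ ^ 2) ^ ((Nat.totient n : ℝ)⁻¹) := by
    have h6 : (p : ℝ) ^ (2 * k) = (((p : ℝ) ^ (2 * k)) ^ Nat.totient n) ^ ((Nat.totient n : ℝ)⁻¹) := by
      rw [← Real.rpow_natCast ((p : ℝ) ^ (2 * k)) (Nat.totient n), ← Real.rpow_mul (by positivity),
        mul_inv_cancel₀ hφR.ne', Real.rpow_one]
    rw [h6]
    exact Real.rpow_le_rpow (by positivity) hprod2 (by positivity)
  have h7 := h5.trans hag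
  rw [inv_mul_eq_div, le_div_iff₀ hφR] at h7
  exact h7

/-- **Core**: if `iI * |D| < p ^ (2 k) * |RG|` all heights are smaller than `k`. -/
theorem HTL_core (hLOA : LOA_stmt) (hGRG : GRG_stmt) (hUDD : UDD_stmt) (hNZ3 : NZ3_stmt)
    (hNRC : NRC_stmt) (hDPX : DPX_stmt) (hGAV : GAV_stmt) (hBS1 : BS1_stmt) (hTPR : FI.TPR_stmt)
    (p : ℕ) (M : Ideal (integralClosure ℤ ℂ)) (hS : Setup p M) (hp2 : p ≠ 2) (G : Type) [Group G] [Finite G]
    (D : Subgroup G) (x : G) (θ χ : G → ℂ) (hR : Rt p M D x θ χ) (k : ℕ)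
    (hk : iI M D θ * Nat.card D < p ^ (2 * k) * (RG M D θ).ncard) (ψ : G → ℂ) (hψ : ψ ∈ Blk M χ (⊤ : Subgroup G)) (a : ℕ)
    (ha : Nat.card D = p ^ a) (κ : ℤ) (hκ : Defect p ⊤ ψ κ) : (a : ℤ) < κ + k := by
  classical
  have hp := hS.pr
  have : Fact p.Prime := Fact.mk hp
  have lo := hLOA p M hS G D x θ χ hR
  obtain ⟨-, hT2, -⟩ := hTPR p M hS G
  have hθ : SB M ⊤ θ χ := (hT2 θ χ).1 hR.ind
  have hψB : ψ ∈ Bl M (⊤ : Subgroup G) θ := ⟨hψ.1, ((hT2 ψ χ).1 hψ.2).trans hθ.symm⟩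
  obtain ⟨d, hψ1, hκd⟩ := hκ
  rw [Subgroup.card_top] at hκd
  have hvD : padicValNat p (Nat.card D) = a := by
    rw [ha, padicValNat.prime_pow]
  have hd : d ≠ 0 := by
    rintro rfl
    have h1 := IrrOn_ne hψ.1
    rw [hψ1] at h1
    exact h1 (by norm_num)
  by_contra hcon
  rw [not_lt] at hcon
  have hv : padicValNat p (Nat.card G) + k ≤ padicValNat p (Nat.card D) + padicValNat p d := by
    rw [hvD]
    omega
  have hu1 : ∀ u ∈ RG M D θ, dd M (Cz (⊤ : Subgroup G) u) θ ψ u ≠ 0 ∧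
      IntAt M (dd M (Cz (⊤ : Subgroup G) u) θ ψ u / (p : ℂ) ^ k) := fun u hu =>
    HTL_iap hUDD hNZ3 p M hS G D x θ χ hR u hu.1 (hGRG p M hS hp2 G D x θ χ lo u hu).2 ψ hψB d k hψ1 hd hv
  obtain ⟨n, hn⟩ : ∃ n, n = Nat.card D := ⟨_, rfl⟩
  have hnpos : 0 < n := by
    rw [hn]
    exact Nat.card_pos
  have hun : ∀ u ∈ RG M D θ, u ^ n = 1 := by
    intro u hu
    have h1 : (⟨u, hu.1⟩ : D) ^ Nat.card D = 1 := pow_card_eq_one'
    rw [hn]
    exact congrArg (Subtype.val) h1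
  have hnz : NeZero n := ⟨hnpos.ne'⟩
  have hζ := Complex.isPrimitiveRoot_exp n hnpos.ne'
  obtain ⟨ζ, hζe⟩ : ∃ ζ : ℂ, ζ = Complex.exp (2 * Real.pi * Complex.I / n) := ⟨_, rfl⟩
  rw [← hζe] at hζ
  obtain ⟨R, hRe⟩ : ∃ R : Finset G, R = (Set.toFinite (RG M D θ)).toFinset := ⟨_, rfl⟩
  have hRm : ∀ u, u ∈ R ↔ u ∈ RG M D θ := fun u => by rw [hRe, Set.Finite.mem_toFinset]
  have key := hGAV G R n hnpos (fun u hu => hun u ((hRm u).1 hu))
    (fun u hu s hs => (hRm _).2 (HTA_RG_pow ((hRm u).1 hu) (by rw [← hn]; exact hs)))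
    (fun u => ‖dd M (Cz (⊤ : Subgroup G) u) θ ψ u‖ ^ 2) ((p : ℝ) ^ (2 * k)) (by
      intro u hu
      have huR := (hRm u).1 hu
      obtain ⟨P, hP⟩ := hDPX G M ⊤ θ ψ hψ.1 u (Subgroup.mem_top u) n hnpos (hun u huR) ζ hζ
      have h1 := HTL_nag hNRC p M hS n k hnpos P (by
        intro μ hμ
        rw [mem_primitiveRoots hnpos] at hμ
        obtain ⟨s, -, hs, rfl⟩ := hζ.isPrimitiveRoot_iff.1 hμ
        rw [← hP s hs]
        exact hu1 _ (HTA_RG_pow huR (by rw [← hn]; exact hs)))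
      refine h1.trans (le_of_eq ?_)
      symm
      refine Finset.sum_bij (fun s _ => ζ ^ s) ?_ ?_ ?_ ?_
      · intro s hs
        rw [Finset.mem_filter, Finset.mem_range] at hs
        rw [mem_primitiveRoots hnpos]
        exact hζ.pow_of_coprime s hs.2
      · intro s hs t ht hst
        rw [Finset.mem_filter, Finset.mem_range] at hs ht
        exact hζ.pow_inj hs.1 ht.1 hst
      · intro μ hμ
        rw [mem_primitiveRoots hnpos] at hμ
        obtain ⟨s, hs1, hs2, hs3⟩ := hζ.isPrimitiveRoot_iff.1 hμ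
        exact ⟨s, by rw [Finset.mem_filter, Finset.mem_range]; exact ⟨hs1, hs2⟩, hs3⟩
      · intro s hs
        rw [Finset.mem_filter] at hs
        rw [hP s hs.2])
  have h2 := hBS1 p M hS hp2 G D x θ χ lo ψ hψB
  rw [finsum_mem_eq_finite_toFinset_sum _ (Set.toFinite (RG M D θ)), ← hRe] at h2
  have h3 := key.trans h2
  have h4 : R.card = (RG M D θ).ncard := by
    rw [hRe, Set.ncard_eq_toFinset_card (RG M D θ) (Set.toFinite _)]
  rw [h4] at h3
  have h5 : p ^ (2 * k) * (RG M D θ).ncard ≤ Nat.card D * iI M D θ := by exact_mod_cast h3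
  have h8 : Nat.card D * iI M D θ = iI M D θ * Nat.card D := mul_comm _ _
  omega

/-- The core without hypotheses. -/
theorem HTL_ht {p : ℕ} {M : Ideal (integralClosure ℤ ℂ)} (hS : Setup p M) (hp2 : p ≠ 2) (G : Type) [Group G] [Finite G]
    (D : Subgroup G) (x : G) (θ χ : G → ℂ) (hR : Rt p M D x θ χ) (k : ℕ)
    (hk : iI M D θ * Nat.card D < p ^ (2 * k) * (RG M D θ).ncard) (ψ : G → ℂ) (hψ : ψ ∈ Blk M χ (⊤ : Subgroup G)) (a : ℕ)
    (ha : Nat.card D = p ^ a) (κ : ℤ) (hκ : Defect p ⊤ ψ κ) : (a : ℤ) < κ + k :=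
  HTL_core AllP4.pLOA AllP4.pGRG AllHT.hUDD AllH3.hNZ3 AllHT.hNRC AllHT.hDPX AllHT.hGAV AllHT.tBS1 AllA.dTPR p M hS hp2 G D x θ χ hR k hk ψ hψ a ha κ hκ

/-- The numerical step. -/
theorem HTL_num (P q n i d r : ℕ) (h1 : q * (d - r) ≤ (i - 1) * d) (h2 : i ≤ n) (hi : 1 ≤ i) (hd : 0 < d) (hrd : r ≤ d)
    (h : n * q + P * (n - 1) < P * q) : i * d < P * r := by
  have hq : 0 < q := by
    rcases Nat.eq_zero_or_pos q with h0 | h0
    · rw [h0] at h; simp at h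
    · exact h0
  obtain ⟨s, rfl⟩ := Nat.exists_eq_add_of_le hrd
  have h1' : q * s ≤ (i - 1) * (r + s) := by
    have : r + s - r = s := by omega
    rwa [this] at h1
  have h3 : (i - 1) * (r + s) ≤ (n - 1) * (r + s) := Nat.mul_le_mul_right _ (by omega)
  have h4 : q * s ≤ (n - 1) * (r + s) := h1'.trans h3
  have h5 : (n * q + P * (n - 1)) * (r + s) < P * q * (r + s) := Nat.mul_lt_mul_of_pos_right h hd
  have h6 : P * (q * s) ≤ P * ((n - 1) * (r + s)) := Nat.mul_le_mul_left _ h4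
  have h7 : n * q * (r + s) < P * r * q := by nlinarith
  have h8 : i * (r + s) * q ≤ n * q * (r + s) := by
    have : i * ((r + s) * q) ≤ n * ((r + s) * q) := Nat.mul_le_mul_right _ h2
    nlinarith
  have h9 : i * (r + s) * q < P * r * q := lt_of_le_of_lt h8 h7
  exact lt_of_mul_lt_mul_right h9 (Nat.zero_le q)

/-- **HTL**. -/
theorem HTL : HTL_stmt := by
  intro p M hS hp2 G _ _ D x θ χ hR n c h H ψ hψ a ha k hk
  rcases H.hgt with hg | ⟨h0, hKM⟩
  · have h1 := HTL_rg hS.pr M D θ hR.com hR.dfa.pgrp (c + h - 1) H.wit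
    have hc : c + h - 1 + 1 = c + h := by
      have := H.pos
      omega
    rw [hc] at h1
    have h2 := HTL_num (p ^ (2 * h + 2)) (p ^ (c + h)) n (iI M D θ) (Nat.card D) (RG M D θ).ncard h1 H.le
      (HTA_iI_pos M D θ) Nat.card_pos (HTA_RG_le M D θ) hg
    have h3 := HTL_ht hS hp2 G D x θ χ hR (h + 1) (by
      rw [show 2 * (h + 1) = 2 * h + 2 by ring]; exact h2) ψ hψ a ha k hk
    push_cast at h3
    omega
  · have h1 := hKM G D x θ χ hR ψ hψ a ha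
    obtain ⟨d1, e1, f1⟩ := h1
    obtain ⟨d2, e2, f2⟩ := hk
    have h3 : d1 = d2 := by
      have : (d1 : ℂ) = d2 := by rw [← e1, ← e2]
      exact_mod_cast this
    subst h3
    omega

end Pool.Agent.LE
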