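import Pool.Agent.helper1.LE.HTL
import Pool.Agent.helper70.LE.Defs3
import Pool.Agent.helper58.LE.AllG

/-!
# Row `le:HZH` (MP_baa4d7_al): `iI * |D| < p ^ 2 * |RG|` implies that all heights are zero
-/

set_option autoImplicit false

namespace Pool.Agent.LE

open Pool.Agent.helper58.DC Pool.Agent.DI Pool.Agent.GR Pool.Agent.OB Pool.Agent.DR Pool.Agent.FI Pool.Agent.FI3 Pool.Agent.FI4

theorem HZH_iI {G : Type} [Group G] (M : Ideal (integralClosure ℤ ℂ)) (D : Subgroup G) (θ : G → ℂ) :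
    (cz D).relIndex (TT M D θ) = iI M D θ := rfl

/-- All heights are at most `h` if `iI * |D| < p ^ (2 h + 2) * |RG|`. -/
theorem HZH_ht {p : ℕ} {M : Ideal (integralClosure ℤ ℂ)} (hS : Setup p M) (hp2 : p ≠ 2) (G : Type) [Group G] [Finite G]
    (D : Subgroup G) (x : G) (θ χ : G → ℂ) (hR : Rt p M D x θ χ) (h : ℕ)
    (hk : (cz D).relIndex (TT M D θ) * Nat.card D < p ^ (2 * h + 2) * (RGT D (TT M D θ)).ncard)
    (ψ : G → ℂ) (hψ : ψ ∈ Blk M χ (⊤ : Subgroup G)) (a : ℕ)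
    (ha : Nat.card D = p ^ a) (κ : ℤ) (hκ : Defect p ⊤ ψ κ) : (a : ℤ) ≤ κ + h := by
  have h3 := HTL_ht hS hp2 G D x θ χ hR (h + 1) (by
    rw [show 2 * (h + 1) = 2 * h + 2 by ring]; exact hk) ψ hψ a ha κ hκ
  push_cast at h3
  omega

/-- **HZH**. -/
theorem HZH : HZH_stmt := by
  intro p M hS hp2 G _ _ D x θ χ hR H ψ hψ a ha
  obtain ⟨κ, hκ, hle⟩ := AllG.gDFE p M hS G D x θ χ hR ψ hψ a ha
  have h1 := HZH_ht hS hp2 G D x θ χ hR 0 (by
    rw [show 2 * 0 + 2 = 2 by ring]; exact H) ψ hψ a ha κ hκ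
  have h2 : κ = a := by
    push_cast at h1
    omega
  rw [h2] at hκ
  exact hκ

end Pool.Agent.LE
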